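import Pool.Agent.H818Z.EbRep

namespace Pool.Agent.Results.MP_6b7756_an.AmenableOpen

open Pool.Agent.H818Z.Eb

universe u

/-- There is a second countable locally compact Hausdorff group with an amenable (even compact and
central) open subgroup whose reduced Fourier-Stieltjes algebra is not an Eberlein algebra. -/
theorem result : ∃ (G : Type) (_ : Group G) (_ : TopologicalSpace G) (_ : IsTopologicalGroup G)
    (_ : LocallyCompactSpace G) (_ : T2Space G) (_ : SecondCountableTopology G)
    (_ : MeasurableSpace G) (_ : BorelSpace G),
    (∃ K : Subgroup G, IsOpen (K : Set G) ∧ IsCompact (K : Set G) ∧ K ≤ Subgroup.center G ∧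
      Amenable K) ∧ ¬ IsEberlein.{u} G :=
  counter

end Pool.Agent.Results.MP_6b7756_an.AmenableOpen
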